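import Pool.Agent.Helper13.FacComp.Defs
import Pool.Agent.Helper13.FacComp.Final

namespace Pool.Agent.Results.MP_2100e3_co.LeadingTerm

open Pool.Agent.Helper13.FacComp

/-- For every real `a ≥ 16` the supremum `B(a)` is finite and
`a log₂ a - 4 a log₂ log₂ a ≤ B(a) ≤ a log₂ a + 14 a log₂ log₂ a`. -/
theorem result : ∀ a : ℝ, 16 ≤ a →
    BddAbove (differences a) ∧
    a * Real.logb 2 a - 4 * a * Real.logb 2 (Real.logb 2 a) ≤ B a ∧
    B a ≤ a * Real.logb 2 a + 14 * a * Real.logb 2 (Real.logb 2 a) :=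
  fun a ha => ⟨bdd a (by linarith), lower_main a ha, upper_main a ha⟩

end Pool.Agent.Results.MP_2100e3_co.LeadingTerm
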